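import Mathlib

/-!
# From natural weights to real weights
-/

set_option autoImplicit false

open Finset Filter Topology

namespace Pool.Agent.H65U

/-- A bound for all natural weights of the rows gives the bound for all real weights. -/
theorem real_F {P : Type} {S : Finset P} {i0 i1 : Finset P → ℝ} (hi0 : ∀ Z, 0 ≤ i0 Z)
    (hi1 : ∀ Z, 0 ≤ i1 Z) {θ : ℝ} (hθ : 0 < θ) {F : (P → ℝ) → ℝ}
    (hF : ∀ M : ℝ, 0 < M → ∀ d : P → ℝ, (∀ a ∈ S, 0 ≤ d a) →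
      F (fun x => M * d x) = M ^ θ * F d)
    {R0 R1 V : ℝ} (hR0 : 0 ≤ R0) (hR1 : 0 ≤ R1) (hV : 0 ≤ V)
    (hnat : ∀ c0 c1 : ℕ, ∀ d : P → ℝ, (∀ a ∈ S, 0 ≤ d a) →
      (∀ Z ⊆ S, ∑ a ∈ Z, d a ≤ c0 * i0 Z + c1 * i1 Z) → F d ≤ (c0 * R0 + c1 * R1) ^ θ * V)
    {u0 u1 : ℝ} (hu0 : 0 ≤ u0) (hu1 : 0 ≤ u1) {d : P → ℝ} (hd : ∀ a ∈ S, 0 ≤ d a)
    (hH : ∀ Z ⊆ S, ∑ a ∈ Z, d a ≤ u0 * i0 Z + u1 * i1 Z) :
    F d ≤ (u0 * R0 + u1 * R1) ^ θ * V := by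
  set X := u0 * R0 + u1 * R1 with hX
  have hX0 : 0 ≤ X := by positivity
  have key : ∀ n : ℕ, F d ≤ (X + (R0 + R1) * (1 / ((n : ℝ) + 1))) ^ θ * V := by
    intro n
    set M : ℝ := (n : ℝ) + 1 with hM
    have hM0 : 0 < M := by positivity
    have h1 := hnat ⌈M * u0⌉₊ ⌈M * u1⌉₊ (fun x => M * d x)
      (fun a ha => mul_nonneg hM0.le (hd a ha)) ?_
    · rw [hF M hM0 d hd] at h1
      have c0 : (⌈M * u0⌉₊ : ℝ) ≤ M * u0 + 1 := (Nat.ceil_lt_add_one (by positivity)).le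
      have c1 : (⌈M * u1⌉₊ : ℝ) ≤ M * u1 + 1 := (Nat.ceil_lt_add_one (by positivity)).le
      have h2 : (⌈M * u0⌉₊ : ℝ) * R0 + (⌈M * u1⌉₊ : ℝ) * R1 ≤
          M * (X + (R0 + R1) * (1 / M)) := by
        have e : M * (X + (R0 + R1) * (1 / M)) = (M * u0 + 1) * R0 + (M * u1 + 1) * R1 := by
          rw [hX]
          field_simp
          ring
        rw [e]
        exact add_le_add (mul_le_mul_of_nonneg_right c0 hR0)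
          (mul_le_mul_of_nonneg_right c1 hR1)
      have h3 := Real.rpow_le_rpow (by positivity) h2 hθ.le
      rw [Real.mul_rpow hM0.le (by positivity)] at h3
      have h4 : M ^ θ * F d ≤ M ^ θ * ((X + (R0 + R1) * (1 / M)) ^ θ * V) := by
        rw [← mul_assoc]
        exact h1.trans (mul_le_mul_of_nonneg_right h3 hV)
      exact le_of_mul_le_mul_left h4 (Real.rpow_pos_of_pos hM0 _)
    · intro Z hZ
      rw [← mul_sum]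
      have g := mul_le_mul_of_nonneg_left (hH Z hZ) hM0.le
      have c0 := mul_le_mul_of_nonneg_right (Nat.le_ceil (M * u0)) (hi0 Z)
      have c1 := mul_le_mul_of_nonneg_right (Nat.le_ceil (M * u1)) (hi1 Z)
      calc M * ∑ a ∈ Z, d a ≤ M * (u0 * i0 Z + u1 * i1 Z) := g
        _ = M * u0 * i0 Z + M * u1 * i1 Z := by ring
        _ ≤ _ := add_le_add c0 c1
  have hlim : Tendsto (fun n : ℕ => (X + (R0 + R1) * (1 / ((n : ℝ) + 1))) ^ θ * V) atTop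
      (𝓝 ((X + (R0 + R1) * 0) ^ θ * V)) := by
    refine Tendsto.mul_const _ ?_
    refine Tendsto.rpow_const ?_ (Or.inr hθ.le)
    exact tendsto_const_nhds.add (tendsto_one_div_add_atTop_nhds_zero_nat.const_mul _)
  rw [mul_zero, add_zero] at hlim
  exact ge_of_tendsto' hlim key

/-- The same for the weighted sums of `θ`-th powers over the two rows. -/
theorem real_U {S : Finset (ℕ × ℕ)} {i0 i1 : Finset (ℕ × ℕ) → ℝ} (hi0 : ∀ Z, 0 ≤ i0 Z)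
    (hi1 : ∀ Z, 0 ≤ i1 Z) {θ : ℝ} (hθ : 0 < θ) {w0 w1 : ℝ}
    {R0 R1 V : ℝ} (hR0 : 0 ≤ R0) (hR1 : 0 ≤ R1) (hV : 0 ≤ V)
    (hnat : ∀ c0 c1 : ℕ, ∀ d : ℕ × ℕ → ℝ, (∀ a ∈ S, 0 ≤ d a) →
      (∀ Z ⊆ S, ∑ a ∈ Z, d a ≤ c0 * i0 Z + c1 * i1 Z) →
      w0 * ∑ x ∈ S.filter (fun x => ¬ x.2 = 1), d x ^ θ +
        w1 * ∑ x ∈ S.filter (fun x => x.2 = 1), d x ^ θ ≤ (c0 * R0 + c1 * R1) ^ θ * V)
    {u0 u1 : ℝ} (hu0 : 0 ≤ u0) (hu1 : 0 ≤ u1) {d : ℕ × ℕ → ℝ} (hd : ∀ a ∈ S, 0 ≤ d a)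
    (hH : ∀ Z ⊆ S, ∑ a ∈ Z, d a ≤ u0 * i0 Z + u1 * i1 Z) :
    w0 * ∑ x ∈ S.filter (fun x => ¬ x.2 = 1), d x ^ θ +
      w1 * ∑ x ∈ S.filter (fun x => x.2 = 1), d x ^ θ ≤ (u0 * R0 + u1 * R1) ^ θ * V := by
  refine real_F hi0 hi1 hθ (F := fun d => w0 * ∑ x ∈ S.filter (fun x => ¬ x.2 = 1), d x ^ θ +
    w1 * ∑ x ∈ S.filter (fun x => x.2 = 1), d x ^ θ) ?_ hR0 hR1 hV hnat hu0 hu1 hd hH
  intro M hM d hd
  have e : ∀ Q : ℕ × ℕ → Prop, ∀ _ : DecidablePred Q,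
      ∑ x ∈ S.filter Q, (M * d x) ^ θ = M ^ θ * ∑ x ∈ S.filter Q, d x ^ θ := by
    intro Q _
    rw [mul_sum]
    refine sum_congr rfl fun x hx => ?_
    rw [Real.mul_rpow hM.le (hd x (mem_filter.1 hx).1)]
  simp only [e]
  ring

end Pool.Agent.H65U
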