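import Pool.Agent.H65U.LimitU
import Pool.Agent.H65U.RealU
import Pool.Agent.H5St.TensorV

/-!
# The weighted inequality for the two rows
-/

set_option autoImplicit false

open Finset Classical

namespace Pool.Agent.H65U

open Pool.Agent.PlunTwo Pool.Agent.PlunRow Pool.Agent.H5St

/-- The inequality with the weights `u0`, `u1` of the rows of the target and the weights `v0`, `v1`
of the rows of the source. -/
theorem main_U {q k j : ℕ} (hj : 0 < j) (hk : j < k) (A B : Set (ℕ × ℕ)) {d : ℕ × ℕ → ℝ}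
    (hd : ∀ a ∈ src q A, 0 ≤ d a) {u0 u1 v0 v1 : ℝ} (hu0 : 0 ≤ u0) (hu1 : 0 ≤ u1)
    (hv0 : 0 ≤ v0) (hv1 : 0 ≤ v1)
    (hH : ∀ Z ⊆ src q A, ∑ a ∈ Z, d a ≤
      u0 * ((im q k B 0 Z).card : ℝ) + u1 * ((im q k B 1 Z).card : ℝ)) :
    v0 ^ (1 - (j : ℝ) / k) * ∑ x ∈ (src q A).filter (fun x => ¬ x.2 = 1), d x ^ ((j : ℝ) / k) +
      v1 ^ (1 - (j : ℝ) / k) * ∑ x ∈ (src q A).filter (fun x => x.2 = 1), d x ^ ((j : ℝ) / k) ≤
    (u0 * (row 0 (msum A (kfold B j)) (q + 1) : ℝ) +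
      u1 * (row 1 (msum A (kfold B j)) (q + 1) : ℝ)) ^ ((j : ℝ) / k) *
      (v0 * (row 0 (msum A (kfold B j)) (q + 1) : ℝ) +
        v1 * (row 1 (msum A (kfold B j)) (q + 1) : ℝ)) ^ (1 - (j : ℝ) / k) := by
  have hk0 : (0 : ℝ) < k := by exact_mod_cast hj.trans hk
  have hjR : (0 : ℝ) < j := by exact_mod_cast hj
  refine real_U (fun _ => Nat.cast_nonneg _) (fun _ => Nat.cast_nonneg _) (div_pos hjR hk0)
    (Nat.cast_nonneg _) (Nat.cast_nonneg _) (Real.rpow_nonneg (by positivity) _) ?_ hu0 hu1 hd hH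
  intro c0 c1 d hd hH
  exact power_limit_U hj hk (by positivity)
    (sum_nonneg fun x hx => Real.rpow_nonneg (hd x (mem_filter.1 hx).1) _)
    (sum_nonneg fun x hx => Real.rpow_nonneg (hd x (mem_filter.1 hx).1) _)
    (Nat.cast_nonneg _) (Nat.cast_nonneg _) hv0 hv1 (Nat.cast_nonneg _)
    fun n m _ => tensorU hj hk.le A B hd hH n m

end Pool.Agent.H65U
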