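import Pool.Agent.PlunTwo.Final
import Pool.Agent.H5St.Half

/-!
# The density form for `k B` dense on all staircases, `k ≤ 2 k'`
-/

set_option autoImplicit false

open Finset Classical

namespace Pool.Agent.H65U

open Pool.Agent.PlunTwo Pool.Agent.H5St

/-- If `k B` has at least `c |S|` points in every staircase `S` and `k ≤ 2 j` then
`σ_N(A + j B) ≥ σ_N(A) ^ (1 - θ) c ^ θ` with `θ = j / k`. -/
theorem density_stairs {N j k : ℕ} (hj : 0 < j) (hk : j < k) (hkj : k ≤ 2 * j)
    (A B : Set (ℕ × ℕ)) {c : ℝ} (hc : 0 ≤ c) (hK : OnStairs N (kfold B k) c) :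
    sigma N A ^ (1 - (j : ℝ) / k) * c ^ ((j : ℝ) / k) ≤ sigma N (msum A (kfold B j)) := by
  obtain ⟨hθ0, hθ1⟩ := theta_pos hj hk
  rcases (sigma_nonneg N A).eq_or_lt with h | hα
  · rw [← h, Real.zero_rpow (by linarith), zero_mul]
    exact sigma_nonneg _ _
  rcases hc.eq_or_lt with h | hc0
  · rw [← h, Real.zero_rpow hθ0.ne', mul_zero]
    exact sigma_nonneg _ _
  refine le_sigma N _ _ (fun n hn => ?_) fun n hn => ?_
  · refine one_row hj hk hn A B hα hc0 (fun l hl => row_zero_ge N A hl) fun l hl => ?_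
    have h := hK l hl 0 (Nat.zero_le _)
    have h0 : (row 1 (kfold B k) 0 : ℝ) = 0 := by simp [row]
    rw [h0, Nat.cast_zero, add_zero, add_zero] at h
    exact h
  · have h := half_bound (q := n) hj hk hkj A B hα hc0
      (fun l hl => row_zero_ge N A (by omega))
      (fun l hl => by
        have := rows_ge N A (l := l) (by omega)
        linarith)
      (fun a ha b hb => hK a (by omega) b hb)
    push_cast at h
    linarith

end Pool.Agent.H65U
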