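import Pool.Agent.PlunRow.Limit

/-!
# The limit of the powers, with a separate bound for the used blocks
-/

set_option autoImplicit false

open Finset Pool.Agent.PlunRow

namespace Pool.Agent.H65U

/-- Taking the limit `n → ∞` of the bounds in the `n`-th power. -/
theorem power_limit_U {k j c : ℕ} (hj : 0 < j) (hk : j < k) {F0 F1 R0 R1 RT v0 v1 M : ℝ}
    (hRT : 0 ≤ RT)
    (hF0 : 0 ≤ F0) (hF1 : 0 ≤ F1) (hR0 : 0 ≤ R0) (hR1 : 0 ≤ R1) (hv0 : 0 ≤ v0) (hv1 : 0 ≤ v1)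
    (hM : 0 ≤ M)
    (h : ∀ n m : ℕ, m ≤ n →
      ((n.choose m : ℝ) * F0 ^ (n - m) * F1 ^ m) ^ k ≤
        ((k : ℝ) * n + 1) ^ c * M * (RT ^ n) ^ j *
          ((n.choose m : ℝ) * R0 ^ (n - m) * R1 ^ m) ^ (k - j)) :
    v0 ^ (1 - (j : ℝ) / k) * F0 + v1 ^ (1 - (j : ℝ) / k) * F1 ≤
      RT ^ ((j : ℝ) / k) * (v0 * R0 + v1 * R1) ^ (1 - (j : ℝ) / k) := by
  have hk0 : 0 < k := hj.trans hk
  have hk0' : (0 : ℝ) < k := by exact_mod_cast hk0
  have hkn : (k : ℝ) ≠ 0 := hk0'.ne'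
  have hs : (1 - (j : ℝ) / k) = ((k - j : ℕ) : ℝ) * (1 / k) := by
    rw [Nat.cast_sub hk.le]
    field_simp
  have hrt : ∀ v : ℝ, 0 ≤ v → (v ^ (1 - (j : ℝ) / k)) ^ k = v ^ (k - j) := by
    intro v hv
    rw [← Real.rpow_natCast (v ^ (1 - (j : ℝ) / k)) k, ← Real.rpow_mul hv, hs]
    rw [show ((k - j : ℕ) : ℝ) * (1 / k) * k = ((k - j : ℕ) : ℝ) by field_simp]
    rw [Real.rpow_natCast]
  set w0 := v0 ^ (1 - (j : ℝ) / k) with hw0
  set w1 := v1 ^ (1 - (j : ℝ) / k) with hw1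
  have hw0n : 0 ≤ w0 := Real.rpow_nonneg hv0 _
  have hw1n : 0 ≤ w1 := Real.rpow_nonneg hv1 _
  have hw0k : w0 ^ k = v0 ^ (k - j) := hrt v0 hv0
  have hw1k : w1 ^ k = v1 ^ (k - j) := hrt v1 hv1
  set X := v0 * R0 + v1 * R1 with hX
  have hX0 : 0 ≤ X := by positivity
  set g0 := w0 * F0 with hg0
  set g1 := w1 * F1 with hg1
  have hg0n : 0 ≤ g0 := by positivity
  have hg1n : 0 ≤ g1 := by positivity
  -- a single term
  have hterm : ∀ n m : ℕ, m ≤ n →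
      ((n.choose m : ℝ) * g0 ^ (n - m) * g1 ^ m) ^ k ≤
        ((k : ℝ) * n + 1) ^ c * M * (RT ^ n) ^ j * (X ^ n) ^ (k - j) := by
    intro n m hm
    have h1 := h n m hm
    have hv : (0 : ℝ) ≤ (v0 ^ (n - m) * v1 ^ m) ^ (k - j) := by positivity
    have h2 := mul_le_mul_of_nonneg_right h1 hv
    have e1 : ((n.choose m : ℝ) * F0 ^ (n - m) * F1 ^ m) ^ k *
        (v0 ^ (n - m) * v1 ^ m) ^ (k - j) = ((n.choose m : ℝ) * g0 ^ (n - m) * g1 ^ m) ^ k := by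
      rw [hg0, hg1]
      have a0 : (v0 ^ (n - m)) ^ (k - j) = (w0 ^ (n - m)) ^ k := by
        rw [← pow_mul, mul_comm, pow_mul, ← hw0k, ← pow_mul, ← pow_mul, mul_comm]
      have a1 : (v1 ^ m) ^ (k - j) = (w1 ^ m) ^ k := by
        rw [← pow_mul, mul_comm, pow_mul, ← hw1k, ← pow_mul, ← pow_mul, mul_comm]
      rw [mul_pow (v0 ^ (n - m)), a0, a1, ← mul_pow, ← mul_pow]
      congr 1
      rw [mul_pow, mul_pow]
      ring
    have e2 : ((k : ℝ) * n + 1) ^ c * M * (RT ^ n) ^ j *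
          ((n.choose m : ℝ) * R0 ^ (n - m) * R1 ^ m) ^ (k - j) *
          (v0 ^ (n - m) * v1 ^ m) ^ (k - j) =
        ((k : ℝ) * n + 1) ^ c * M * (RT ^ n) ^ j *
          ((v0 * R0) ^ (n - m) * (v1 * R1) ^ m * (n.choose m : ℝ)) ^ (k - j) := by
      rw [mul_assoc, ← mul_pow]
      congr 2
      rw [mul_pow, mul_pow]
      ring
    rw [e1, e2] at h2
    refine h2.trans ?_
    have h3 : (v0 * R0) ^ (n - m) * (v1 * R1) ^ m * (n.choose m : ℝ) ≤ X ^ n := by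
      rw [hX, add_comm (v0 * R0), add_pow]
      have : (v0 * R0) ^ (n - m) * (v1 * R1) ^ m * (n.choose m : ℝ) =
          (v1 * R1) ^ m * (v0 * R0) ^ (n - m) * (n.choose m : ℝ) := by ring
      rw [this]
      exact Finset.single_le_sum
        (f := fun i => (v1 * R1) ^ i * (v0 * R0) ^ (n - i) * (n.choose i : ℝ))
        (fun i _ => by positivity) (Finset.mem_range.2 (Nat.lt_succ_of_le hm))
    have h4 : (0 : ℝ) ≤ (v0 * R0) ^ (n - m) * (v1 * R1) ^ m * (n.choose m : ℝ) := by positivity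
    have h5 : (0 : ℝ) ≤ ((k : ℝ) * n + 1) ^ c * M * (RT ^ n) ^ j := by positivity
    exact mul_le_mul_of_nonneg_left (pow_le_pow_left₀ h4 h3 _) h5
  -- the sum
  have hsum : ∀ n : ℕ, ((g0 + g1) ^ k) ^ n ≤
      ((n : ℝ) + 1) ^ k * (((k : ℝ) * n + 1) ^ c * M) * (RT ^ j * X ^ (k - j)) ^ n := by
    intro n
    have hne : (Finset.range (n + 1)).Nonempty := ⟨0, by simp⟩
    obtain ⟨m, hm, hmax⟩ := Finset.exists_max_image (Finset.range (n + 1))
      (fun i => (n.choose i : ℝ) * g0 ^ (n - i) * g1 ^ i) hne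
    have hm' : m ≤ n := Nat.lt_succ_iff.1 (Finset.mem_range.1 hm)
    have h1 : (g0 + g1) ^ n ≤ ((n : ℝ) + 1) * ((n.choose m : ℝ) * g0 ^ (n - m) * g1 ^ m) := by
      rw [add_comm g0, add_pow]
      have : ∑ i ∈ Finset.range (n + 1), g1 ^ i * g0 ^ (n - i) * (n.choose i : ℝ) ≤
          ∑ _i ∈ Finset.range (n + 1), ((n.choose m : ℝ) * g0 ^ (n - m) * g1 ^ m) := by
        refine Finset.sum_le_sum fun i hi => ?_
        have := hmax i hi
        calc g1 ^ i * g0 ^ (n - i) * (n.choose i : ℝ) = (n.choose i : ℝ) * g0 ^ (n - i) * g1 ^ i := by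
              ring
          _ ≤ _ := this
      refine this.trans ?_
      rw [Finset.sum_const, Finset.card_range, nsmul_eq_mul]
      push_cast
      exact le_rfl
    have h0 : (0 : ℝ) ≤ (g0 + g1) ^ n := by positivity
    have h2 := pow_le_pow_left₀ h0 h1 k
    rw [mul_pow ((n : ℝ) + 1)] at h2
    have h3 := mul_le_mul_of_nonneg_left (hterm n m hm')
      (show (0 : ℝ) ≤ ((n : ℝ) + 1) ^ k by positivity)
    have h4 := h2.trans h3
    calc ((g0 + g1) ^ k) ^ n = ((g0 + g1) ^ n) ^ k := by rw [← pow_mul, ← pow_mul, mul_comm]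
      _ ≤ _ := h4
      _ = _ := by
        rw [mul_pow (RT ^ j), ← pow_mul RT n j, ← pow_mul RT j n, ← pow_mul X n, ← pow_mul X _ n,
          mul_comm n j, mul_comm n (k - j)]
        ring
  -- the limit
  have hlim : (g0 + g1) ^ k ≤ RT ^ j * X ^ (k - j) := by
    refine le_of_pow_le_poly (C := 2 ^ k * (((k : ℝ) + 1) ^ c * M)) (d := k + c)
      (by positivity) fun n hn => (hsum n).trans ?_
    have hn1 : (1 : ℝ) ≤ n := by exact_mod_cast hn
    have hB : (0 : ℝ) ≤ (RT ^ j * X ^ (k - j)) ^ n := by positivity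
    refine mul_le_mul_of_nonneg_right ?_ hB
    have i1 : ((n : ℝ) + 1) ^ k ≤ (2 * n) ^ k := pow_le_pow_left₀ (by positivity) (by linarith) k
    have i2 : ((k : ℝ) * n + 1) ^ c ≤ (((k : ℝ) + 1) * n) ^ c :=
      pow_le_pow_left₀ (by positivity) (by nlinarith) c
    calc ((n : ℝ) + 1) ^ k * (((k : ℝ) * n + 1) ^ c * M)
        ≤ (2 * n) ^ k * ((((k : ℝ) + 1) * n) ^ c * M) := by
          refine mul_le_mul i1 (mul_le_mul_of_nonneg_right i2 hM) (by positivity) (by positivity)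
      _ = 2 ^ k * (((k : ℝ) + 1) ^ c * M) * (n : ℝ) ^ (k + c) := by
          rw [mul_pow, mul_pow, pow_add]
          ring
  -- the root
  have hgn : 0 ≤ g0 + g1 := by positivity
  have hRn : 0 ≤ RT ^ ((j : ℝ) / k) * X ^ (1 - (j : ℝ) / k) := by positivity
  refine le_of_pow_le_pow_left₀ hk0.ne' hRn ?_
  refine hlim.trans (le_of_eq ?_)
  rw [mul_pow, hrt X hX0]
  congr 1
  rw [← Real.rpow_natCast (RT ^ ((j : ℝ) / k)) k, ← Real.rpow_mul hRT]
  rw [show (j : ℝ) / k * k = (j : ℝ) by field_simp]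
  rw [Real.rpow_natCast]

end Pool.Agent.H65U
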